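import Pool.Agent.H5X.EnergyStm

/-!
Stub ENERGY (helper5), proof (helper67): deleting an edge never raises the graph energy by exactly 2.
-/

set_option autoImplicit false

namespace Pool.Agent.H5X.EnergyP

open Matrix Finset
open Pool.Agent.H5X.Energy (energy adj_isHermitian S_ENERGY)

variable {V : Type} [Fintype V] [DecidableEq V]

/-- the spectral theorem for real matrices -/
lemma spec {A : Matrix V V ℝ} (hA : A.IsHermitian) : ∃ U : Matrix V V ℝ, Uᵀ * U = 1 ∧ U * Uᵀ = 1 ∧
    A = U * diagonal hA.eigenvalues * Uᵀ := by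
  refine ⟨(hA.eigenvectorUnitary : Matrix V V ℝ), ?_, ?_, ?_⟩
  · have h := Unitary.star_mul_self_of_mem hA.eigenvectorUnitary.2
    rwa [star_eq_conjTranspose, conjTranspose_eq_transpose_of_trivial] at h
  · have h := Unitary.mul_star_self_of_mem hA.eigenvectorUnitary.2
    rwa [star_eq_conjTranspose, conjTranspose_eq_transpose_of_trivial] at h
  · have h := hA.spectral_theorem
    rw [Unitary.conjStarAlgAut_apply, star_eq_conjTranspose, conjTranspose_eq_transpose_of_trivial] at h
    exact h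

/-- rows of a symmetric involution have square sum one -/
lemma row {M : Matrix V V ℝ} (hs : Mᵀ = M) (hM : M * M = 1) (i : V) : ∑ j, M i j ^ 2 = 1 := by
  have h := congrFun (congrFun hM i) i
  rw [mul_apply, one_apply_eq] at h
  rw [← h]
  refine sum_congr rfl fun j _ => ?_
  have h2 : M j i = M i j := by
    have := congrFun (congrFun hs i) j
    rwa [transpose_apply] at this
  rw [h2]
  ring

lemma abs_le {M : Matrix V V ℝ} (hs : Mᵀ = M) (hM : M * M = 1) (i j : V) : |M i j| ≤ 1 := by
  have h := row hs hM i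
  have h2 : M i j ^ 2 ≤ ∑ j, M i j ^ 2 := single_le_sum (f := fun j => M i j ^ 2) (fun j _ => sq_nonneg _) (mem_univ j)
  rw [h] at h2
  rw [abs_le_one_iff_mul_self_le_one]
  nlinarith

lemma off {M : Matrix V V ℝ} (hs : Mᵀ = M) (hM : M * M = 1) {i j : V} (h1 : M i j = -1) {k : V} (hk : k ≠ j) :
    M i k = 0 := by
  have h := row hs hM i
  have h2 : M i j ^ 2 + M i k ^ 2 ≤ ∑ j, M i j ^ 2 := by
    rw [← sum_pair (f := fun j => M i j ^ 2) hk.symm]
    exact sum_le_sum_of_subset_of_nonneg (subset_univ _) fun _ _ _ => sq_nonneg _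
  rw [h, h1] at h2
  have h3 : M i k ^ 2 ≤ 0 := by linarith
  exact pow_eq_zero_iff (two_ne_zero) |>.1 (le_antisymm h3 (sq_nonneg _))

/-- the main argument for real symmetric matrices -/
lemma key {A A' : Matrix V V ℝ} (hA : A.IsHermitian) (hA' : A'.IsHermitian) {u v : V} (huv : u ≠ v)
    (hAA : A' = A - (single u v 1 + single v u 1)) (h1 : A u u = 0) (h2 : A v v = 0) (h3 : A u v = 1)
    (h4 : A v u = 1) : ∑ i, |hA'.eigenvalues i| ≠ ∑ i, |hA.eigenvalues i| + 2 := by
  intro hcon
  obtain ⟨U, hU1, hU2, hU⟩ := spec hA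
  obtain ⟨W, hW1, hW2, hW⟩ := spec hA'
  obtain ⟨lam, hlam⟩ : ∃ lam, lam = hA.eigenvalues := ⟨_, rfl⟩
  obtain ⟨mu, hmu⟩ : ∃ mu, mu = hA'.eigenvalues := ⟨_, rfl⟩
  rw [← hlam] at hU hcon
  rw [← hmu] at hW hcon
  obtain ⟨d, hd⟩ : ∃ d : V → ℝ, ∀ j, d j = if 0 ≤ mu j then 1 else -1 := ⟨fun j => if 0 ≤ mu j then 1 else -1, fun _ => rfl⟩
  have hd1 : ∀ j, d j * mu j = |mu j| := by
    intro j
    rw [hd]
    split_ifs with h
    · rw [abs_of_nonneg h, one_mul]
    · rw [abs_of_neg (not_le.1 h), neg_one_mul]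
  have hd2 : ∀ j, d j * d j = 1 := by
    intro j
    rw [hd]
    split_ifs <;> norm_num
  obtain ⟨S, hS⟩ : ∃ S : Matrix V V ℝ, S = W * diagonal d * Wᵀ := ⟨_, rfl⟩
  have hSs : Sᵀ = S := by
    rw [hS, transpose_mul, transpose_mul, transpose_transpose, diagonal_transpose, Matrix.mul_assoc]
  have hSS : S * S = 1 := by
    have e : S * S = W * (diagonal d * (Wᵀ * W) * diagonal d) * Wᵀ := by
      rw [hS]; simp only [Matrix.mul_assoc]
    rw [e, hW1, Matrix.mul_one, diagonal_mul_diagonal]
    have e2 : (fun i => d i * d i) = fun _ => (1 : ℝ) := funext hd2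
    rw [e2, diagonal_one, Matrix.mul_one, hW2]
  have hT1 : (S * A').trace = ∑ j, |mu j| := by
    have e : S * A' = W * (diagonal d * (Wᵀ * W) * diagonal mu) * Wᵀ := by
      rw [hS, hW]; simp only [Matrix.mul_assoc]
    rw [e, hW1, Matrix.mul_one, diagonal_mul_diagonal, trace_mul_comm, ← Matrix.mul_assoc, hW1, Matrix.one_mul,
      trace_diagonal]
    exact sum_congr rfl fun j _ => hd1 j
  obtain ⟨M, hM⟩ : ∃ M : Matrix V V ℝ, M = Uᵀ * S * U := ⟨_, rfl⟩
  have hMs : Mᵀ = M := by
    rw [hM, transpose_mul, transpose_mul, transpose_transpose, hSs, Matrix.mul_assoc]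
  have hMM : M * M = 1 := by
    have e : M * M = Uᵀ * (S * (U * Uᵀ) * S) * U := by
      rw [hM]; simp only [Matrix.mul_assoc]
    rw [e, hU2, Matrix.mul_one, hSS, Matrix.mul_one, hU1]
  have hT2 : (S * A).trace = ∑ i, M i i * lam i := by
    have e : (S * A).trace = (M * diagonal lam).trace := by
      rw [hU, hM, ← Matrix.mul_assoc, ← Matrix.mul_assoc, trace_mul_comm]
      simp only [Matrix.mul_assoc]
    rw [e, trace]
    refine sum_congr rfl fun i _ => ?_
    rw [diag_apply, mul_diagonal]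
  have hsym : S v u = S u v := by
    have := congrFun (congrFun hSs u) v
    rwa [transpose_apply] at this
  have hT3 : (S * (single u v 1 + single v u 1)).trace = 2 * S u v := by
    rw [Matrix.mul_add, trace_add, trace_mul_comm, trace_mul_comm S, trace, trace]
    have e1 : ∑ i, (single u v (1 : ℝ) * S).diag i = S v u := by
      rw [sum_eq_single u]
      · rw [diag_apply, single_mul_apply_same, one_mul]
      · intro b _ hb
        rw [diag_apply, single_mul_apply_of_ne _ _ _ _ _ hb]
      · intro h; exact absurd (mem_univ _) h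
    have e2 : ∑ i, (single v u (1 : ℝ) * S).diag i = S u v := by
      rw [sum_eq_single v]
      · rw [diag_apply, single_mul_apply_same, one_mul]
      · intro b _ hb
        rw [diag_apply, single_mul_apply_of_ne _ _ _ _ _ hb]
      · intro h; exact absurd (mem_univ _) h
    rw [e1, e2, hsym]
    ring
  have hT : ∑ j, |mu j| = ∑ i, M i i * lam i - 2 * S u v := by
    rw [← hT1, hAA, Matrix.mul_sub, trace_sub, hT2, hT3]
  rw [hT] at hcon
  have hle : ∀ i, M i i * lam i ≤ |lam i| := by
    intro i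
    have h5 := abs_le hMs hMM i i
    calc M i i * lam i ≤ |M i i * lam i| := le_abs_self _
      _ = |M i i| * |lam i| := abs_mul _ _
      _ ≤ 1 * |lam i| := mul_le_mul_of_nonneg_right h5 (abs_nonneg _)
      _ = |lam i| := one_mul _
  have hS1 : -1 ≤ S u v := (_root_.abs_le.mp (abs_le hSs hSS u v)).1
  have hsum : ∑ i, M i i * lam i ≤ ∑ i, |lam i| := sum_le_sum fun i _ => hle i
  have hSuv : S u v = -1 := by linarith
  have hsum2 : ∑ i, (|lam i| - M i i * lam i) = 0 := by
    rw [sum_sub_distrib]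
    linarith
  have heq : ∀ i, |lam i| - M i i * lam i = 0 := by
    intro i
    exact (sum_eq_zero_iff_of_nonneg fun i _ => sub_nonneg.2 (hle i)).1 hsum2 i (mem_univ i)
  have hneg : ∀ i, lam i < 0 → M i i = -1 := by
    intro i hi
    have h6 := heq i
    rw [abs_of_neg hi] at h6
    have h7 : (M i i + 1) * lam i = 0 := by linarith
    rcases mul_eq_zero.1 h7 with h | h
    · linarith
    · exact absurd h hi.ne
  -- the vector `e_u - e_v`
  obtain ⟨x, hx⟩ : ∃ x : V → ℝ, x = Pi.single u 1 - Pi.single v 1 := ⟨_, rfl⟩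
  have hSx : S *ᵥ x = x := by
    have hSvu : S v u = -1 := by rw [hsym, hSuv]
    rw [hx, mulVec_sub, mulVec_single_one, mulVec_single_one]
    ext k
    rw [Pi.sub_apply, Pi.sub_apply, col_apply, col_apply]
    have e1 : S k u = S u k := by
      have := congrFun (congrFun hSs u) k
      rwa [transpose_apply] at this
    have e2 : S k v = S v k := by
      have := congrFun (congrFun hSs v) k
      rwa [transpose_apply] at this
    rw [e1, e2]
    by_cases hku : k = u
    · subst hku
      rw [off hSs hSS hSuv huv, hSvu, Pi.single_eq_same, Pi.single_eq_of_ne huv]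
      norm_num
    · by_cases hkv : k = v
      · subst hkv
        rw [off hSs hSS hSvu huv.symm, hSuv, Pi.single_eq_same, Pi.single_eq_of_ne huv.symm]
        norm_num
      · rw [off hSs hSS hSuv hkv, off hSs hSS hSvu hku, Pi.single_eq_of_ne hku, Pi.single_eq_of_ne hkv]
  obtain ⟨y, hy⟩ : ∃ y : V → ℝ, y = Uᵀ *ᵥ x := ⟨_, rfl⟩
  have hMy : M *ᵥ y = y := by
    rw [hM, hy, mulVec_mulVec, Matrix.mul_assoc, Matrix.mul_assoc, hU2, Matrix.mul_one, ← mulVec_mulVec, hSx]
  have hyz : ∀ i, lam i < 0 → y i = 0 := by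
    intro i hi
    have h8 := congrFun hMy i
    rw [mulVec, dotProduct, sum_eq_single i] at h8
    · rw [hneg i hi] at h8
      linarith
    · intro b _ hb
      rw [off hMs hMM (hneg i hi) hb, zero_mul]
    · intro h; exact absurd (mem_univ _) h
  have hq : x ⬝ᵥ (A *ᵥ x) = ∑ i, lam i * y i ^ 2 := by
    have e1 : A *ᵥ x = U *ᵥ (diagonal lam *ᵥ y) := by
      rw [hU, hy, mulVec_mulVec, mulVec_mulVec]
    rw [e1, dotProduct_mulVec, ← mulVec_transpose, ← hy, dotProduct]
    refine sum_congr rfl fun i _ => ?_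
    rw [mulVec_diagonal]
    ring
  have hq0 : 0 ≤ x ⬝ᵥ (A *ᵥ x) := by
    rw [hq]
    refine sum_nonneg fun i _ => ?_
    rcases lt_or_ge (lam i) 0 with h | h
    · rw [hyz i h]; simp
    · positivity
  have hq1 : x ⬝ᵥ (A *ᵥ x) = -2 := by
    rw [hx, mulVec_sub, mulVec_single_one, mulVec_single_one, sub_dotProduct, single_one_dotProduct,
      single_one_dotProduct, Pi.sub_apply, Pi.sub_apply, col_apply, col_apply, col_apply, col_apply, h1, h2, h3, h4]
    norm_num
  linarith

theorem t : S_ENERGY := by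
  classical
  intro V _ G e he
  induction e with
  | _ u v =>
    rw [SimpleGraph.mem_edgeSet] at he
    have huv : u ≠ v := he.ne
    unfold energy
    refine key (adj_isHermitian G) (adj_isHermitian (G.deleteEdges {s(u, v)})) huv ?_ ?_ ?_ ?_ ?_
    · ext a b
      rw [Matrix.sub_apply, Matrix.add_apply, SimpleGraph.adjMatrix_apply, SimpleGraph.adjMatrix_apply,
        SimpleGraph.deleteEdges_adj]
      simp only [Set.mem_singleton_iff, Sym2.eq_iff, Matrix.single_apply]
      by_cases h1 : a = u ∧ b = v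
      · obtain ⟨rfl, rfl⟩ := h1
        simp [he, huv, huv.symm]
      · by_cases h2 : a = v ∧ b = u
        · obtain ⟨rfl, rfl⟩ := h2
          simp [he.symm, huv, huv.symm]
        · have h3 : ¬ (u = a ∧ v = b) := fun h => h1 ⟨h.1.symm, h.2.symm⟩
          have h4 : ¬ (v = a ∧ u = b) := fun h => h2 ⟨h.1.symm, h.2.symm⟩
          simp [h1, h2, h3, h4]
    · simp
    · simp
    · simp [he]
    · simp [he.symm]

end Pool.Agent.H5X.EnergyP
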