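import Mathlib

set_option autoImplicit false

namespace Pool.Agent.H5X.Energy

open Matrix

open Classical in
/-- The adjacency matrix of a finite simple graph is a real symmetric matrix. -/
theorem adj_isHermitian {V : Type} [Fintype V] (G : SimpleGraph V) :
    (G.adjMatrix ℝ).IsHermitian := by
  rw [Matrix.IsHermitian, conjTranspose_eq_transpose_of_trivial]
  exact G.transpose_adjMatrix

open Classical in
/-- The energy of a finite simple graph: the sum of the absolute values of the eigenvalues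
(with multiplicity) of its adjacency matrix. -/
noncomputable def energy {V : Type} [Fintype V] (G : SimpleGraph V) : ℝ :=
  ∑ i : V, |(adj_isHermitian G).eigenvalues i|

/-- MP_51d21a_co: deleting an edge never raises the energy by exactly 2.

PROOF (complete). Write `A` for the adjacency matrix of `G`, `B = E_uv + E_vu` for the edge
`e = uv`, so `A' = A - B` is the adjacency matrix of `G \ e`.
Spectral theorem: `A = U Λ Uᵀ`, `A' = W Λ' Wᵀ` with `U, W` real orthogonal, `Λ, Λ'` diagonal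
(the eigenvalues). Put `d_j = 1` if `λ'_j ≥ 0` and `-1` otherwise, `D = diag d`,
`S = W D Wᵀ`. Then `Sᵀ = S`, `S * S = 1`, and `trace (S A') = trace (D Λ') = Σ |λ'_j|`.
With `M = Uᵀ S U` (also symmetric, `M * M = 1`): `trace (S A) = trace (M Λ) = Σ M_ii λ_i`,
and `trace (S B) = 2 S_uv`.
Each row of `M` and of `S` has square sum `1` (from `M Mᵀ = 1`), so `|M_ii| ≤ 1`, `|S_uv| ≤ 1`.
If `Σ|λ'_j| = Σ|λ_i| + 2`, then `Σ M_ii λ_i - 2 S_uv = Σ |λ_i| + 2` and termwise
`M_ii λ_i ≤ |λ_i|`, `- S_uv ≤ 1`, so `S_uv = -1` and `M_ii λ_i = |λ_i|` for all `i`.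
(1) For `λ_i < 0`: `M_ii = -1`, hence `M_ij = 0` for `j ≠ i` (row square sum 1).
(2) `S_uv = -1 = S_vu`, hence `S_uj = 0` for `j ≠ v` and `S_vj = 0` for `j ≠ u`; so for
`x = e_u - e_v` one has `S x = x`.
Put `y = Uᵀ x`. Then `M y = Uᵀ S U Uᵀ x = Uᵀ S x = y`. For `λ_i < 0`, (1) gives
`y_i = (M y)_i = - y_i`, so `y_i = 0`. Hence `xᵀ A x = yᵀ Λ y = Σ λ_i y_i² ≥ 0`.
But `xᵀ A x = A_uu - A_uv - A_vu + A_vv = -2`. Contradiction. -/
def S_ENERGY : Prop :=
  ∀ (V : Type) [Fintype V] (G : SimpleGraph V) (e : Sym2 V), e ∈ G.edgeSet →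
    energy (G.deleteEdges {e}) ≠ energy G + 2

end Pool.Agent.H5X.Energy
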